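import Pool.Agent.HWC.Clauses

/-! The statement of MP_7dc157_al.FiniteExtensions. -/

set_option autoImplicit false

namespace Pool.Agent.HWS

open IsLocalRing Module Pool.Agent.HWC

/-- `R = S[y]` with `y` in the maximal ideal of `R`, or with `y ^ p ^ a` in `S + m_R` for a prime `p`
in the maximal ideal of `S`. -/
def SimpleExt (S R : Type) [CommRing S] [IsLocalRing S] [CommRing R] [IsLocalRing R]
    [Algebra S R] : Prop :=
  ∃ y : R, Algebra.adjoin S {y} = ⊤ ∧ (y ∈ maximalIdeal R ∨
    ∃ (p a : ℕ) (s : S), p.Prime ∧ (p : S) ∈ maximalIdeal S ∧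
      y ^ p ^ a - algebraMap S R s ∈ maximalIdeal R)

/-- `R` is generated over `S` by `y_1, …, y_c`, of rank `n_1 ⋯ n_c`, and `RadGen` holds for some
`x ≠ 0` in the maximal ideal of `S`: `y_i ^ n_i ∈ x R`, or `n_i` is a power of a prime `p ∈ x S` and
`y_i ^ n_i ∈ S + x R`. -/
def RadicalExt (S R : Type) [CommRing S] [IsLocalRing S] [CommRing R] [Algebra S R] : Prop :=
  ∃ x ∈ maximalIdeal S, x ≠ 0 ∧ ∃ (c : ℕ) (Y : Fin c → R) (n : Fin c → ℕ), (∀ i, 0 < n i) ∧
    finrank S R = ∏ i, n i ∧ Algebra.adjoin S (Set.range Y) = ⊤ ∧ RadGen S R x Y n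

/-- The least class of rings that contains

* the discrete valuation rings,
* the semigroup rings `k⟦H⟧`, `k` a field and `H` a free numerical semigroup,
* the one-dimensional Gorenstein local domains which satisfy (HWC),
* with a local domain `S` each local domain `R` which is free of finite rank over `S` with
  `SimpleExt S R`,
* with a local domain `S` each one-dimensional Gorenstein local domain `R` which is free of finite rank
  over `S` with `RadicalExt S R`. -/
inductive Tower : ∀ (R : Type) [CommRing R], Prop
  | dvr (V : Type) [CommRing V] [IsDomain V] [IsDiscreteValuationRing V] : Tower V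
  | sg (k : Type) [Field k] (H : AddSubmonoid ℕ) (hH : FreeSG H) : Tower (sgRing k H)
  | base (S : Type) [CommRing S] [IsDomain S] [IsLocalRing S] [IsNoetherianRing S]
      (hG : GorOne S) (hS : HWC S) : Tower S
  | simple (S R : Type) [CommRing S] [IsDomain S] [IsLocalRing S]
      [CommRing R] [IsDomain R] [IsLocalRing R] [Algebra S R] [Module.Finite S R]
      [Module.Free S R] (hT : Tower S) (hR : SimpleExt S R) : Tower R
  | radical (S R : Type) [CommRing S] [IsDomain S] [IsLocalRing S]
      [CommRing R] [IsDomain R] [IsLocalRing R] [Algebra S R] [Module.Finite S R]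
      [Module.Free S R] (hT : Tower S) (hG : GorOne R) (hR : RadicalExt S R) : Tower R

/-- Every ring of the class `Tower` is a one-dimensional Gorenstein Noetherian local domain and
satisfies (HWC). -/
def TowerClosure : Prop :=
  ∀ (R : Type) [CommRing R], Tower R → ∃ (_ : IsDomain R) (_ : IsLocalRing R),
    IsNoetherianRing R ∧ GorOne R ∧ HWC R

end Pool.Agent.HWS
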