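import Pool.Agent.HWS.Hop

/-!
# An endomorphism of relative trace one on a free module

`R` has the basis `1, y, …, y^(n-1)` over `S`, `f` monic of degree `n`, `f(y) = 0`.
-/

set_option autoImplicit false

namespace Pool.Agent.HWS

open Polynomial

theorem lsmul_pow_apply {S R M : Type} [CommRing S] [CommRing R] [Algebra S R] [AddCommGroup M]
    [Module S M] [Module R M] [IsScalarTower S R M] (y : R) (k : ℕ) (m : M) :
    ((Algebra.lsmul S S M y) ^ k) m = y ^ k • m := by
  rw [← map_pow]; rfl

theorem aeval_lsmul {S R M : Type} [CommRing S] [CommRing R] [Algebra S R] [AddCommGroup M]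
    [Module S M] [Module R M] [IsScalarTower S R M] (y : R) (f : S[X])
    (hroot : aeval y f = 0) : aeval (Algebra.lsmul S S M y) f = 0 := by
  rw [Polynomial.aeval_algHom_apply, hroot, map_zero]

theorem exists_w0 (S R : Type) [CommRing S] [CommRing R] [Algebra S R]
    (pb : PowerBasis S R) (hn : 0 < pb.dim) (f : S[X]) (hf : f.Monic)
    (hdeg : f.natDegree = pb.dim) (hroot : aeval pb.gen f = 0) :
    ∃ w : Module.End S R, hop f (Algebra.lsmul S S R pb.gen) (Algebra.lsmul S S R pb.gen) w =
      LinearMap.id := by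
  set y := pb.gen with hy
  set n := pb.dim with hnd
  let last : Fin n := ⟨n - 1, by omega⟩
  let w : Module.End S R := (Algebra.linearMap S R) ∘ₗ (pb.basis.coord last)
  have hw : ∀ j : ℕ, j < n → w (y ^ j) = if j = n - 1 then 1 else 0 := by
    intro j hj
    have h1 : y ^ j = pb.basis ⟨j, hj⟩ := by rw [pb.basis_eq_pow]
    change algebraMap S R (pb.basis.coord last (y ^ j)) = _
    rw [h1, Module.Basis.coord_apply, Module.Basis.repr_self, Finsupp.single_apply]
    by_cases h2 : j = n - 1
    · rw [if_pos h2, if_pos (Fin.ext h2), map_one]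
    · rw [if_neg h2, if_neg (fun h3 => h2 (congrArg Fin.val h3)), map_zero]
  set Y := Algebra.lsmul S S R y with hY
  have hYk : ∀ (k : ℕ) (r : R), (Y ^ k) r = y ^ k * r := fun k r => lsmul_pow_apply y k r
  have hY1 : ∀ r : R, Y r = y * r := fun r => rfl
  have h0 : ∀ k : ℕ, k < n → hopk Y Y w k 1 = 0 := by
    intro k
    induction k with
    | zero => intro _; rfl
    | succ k ih =>
      intro hk
      rw [hopk_succ, LinearMap.add_apply, LinearMap.comp_apply, LinearMap.comp_apply,
        ih (by omega), map_zero, zero_add, hYk, mul_one, hw k (by omega), if_neg (by omega)]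
  have h1 : hopk Y Y w n 1 = 1 := by
    obtain ⟨m, hm⟩ : ∃ m, n = m + 1 := ⟨n - 1, by omega⟩
    have e1 := h0 m (by omega)
    have e2 := hw m (by omega)
    rw [hm, hopk_succ, LinearMap.add_apply, LinearMap.comp_apply, LinearMap.comp_apply, e1,
      map_zero, zero_add, hYk, mul_one, e2, if_pos (by omega)]
  have hc1 : hop f Y Y w 1 = 1 := by
    unfold hop
    rw [LinearMap.sum_apply, hdeg, Finset.sum_range_succ, Finset.sum_eq_zero, zero_add,
      LinearMap.smul_apply, h1]
    · rw [← hdeg, show f.coeff f.natDegree = 1 from hf, one_smul]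
    · intro k hk
      rw [LinearMap.smul_apply, h0 k (Finset.mem_range.mp hk), smul_zero]
  have hcomm : ∀ r : R, hop f Y Y w (y * r) = y * hop f Y Y w r := by
    intro r
    have e := LinearMap.congr_fun (hop_comm f Y Y w) r
    have e0 : aeval Y f = 0 := aeval_lsmul y f hroot
    rw [e0, LinearMap.zero_comp, LinearMap.comp_zero, sub_zero, LinearMap.zero_apply,
      LinearMap.sub_apply, sub_eq_zero, LinearMap.comp_apply, LinearMap.comp_apply, hY1, hY1] at e
    exact e.symm
  have hpow : ∀ k : ℕ, hop f Y Y w (y ^ k) = y ^ k := by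
    intro k
    induction k with
    | zero => rw [pow_zero, hc1]
    | succ k ih => rw [pow_succ', hcomm, ih]
  refine ⟨w, ?_⟩
  refine pb.basis.ext fun i => ?_
  rw [pb.basis_eq_pow]
  exact hpow i

theorem exists_w (S R : Type) [CommRing S] [CommRing R] [Algebra S R]
    (pb : PowerBasis S R) (hn : 0 < pb.dim) (f : S[X]) (hf : f.Monic)
    (hdeg : f.natDegree = pb.dim) (hroot : aeval pb.gen f = 0) (q : ℕ) :
    ∃ w : Module.End S (Fin q → R), hop f (Algebra.lsmul S S (Fin q → R) pb.gen)
      (Algebra.lsmul S S (Fin q → R) pb.gen) w = LinearMap.id := by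
  obtain ⟨w0, hw0⟩ := exists_w0 S R pb hn f hf hdeg hroot
  let pr : (i : Fin q) → (Fin q → R) →ₗ[S] R := fun i => LinearMap.proj i
  let w : Module.End S (Fin q → R) := LinearMap.pi fun i => w0 ∘ₗ pr i
  refine ⟨w, ?_⟩
  have hnat : ∀ i, (pr i) ∘ₗ (Algebra.lsmul S S (Fin q → R) pb.gen) =
      (Algebra.lsmul S S R pb.gen) ∘ₗ (pr i) := fun i => rfl
  have hprw : ∀ i, (pr i) ∘ₗ w = w0 ∘ₗ pr i := fun i => rfl
  have key : ∀ i, (pr i) ∘ₗ (hop f (Algebra.lsmul S S (Fin q → R) pb.gen)
      (Algebra.lsmul S S (Fin q → R) pb.gen) w) = pr i := by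
    intro i
    rw [hop_nat_left f _ (Algebra.lsmul S S R pb.gen) _ (pr i) (hnat i), hprw,
      ← hop_nat_right f _ (Algebra.lsmul S S R pb.gen) _ (pr i) (hnat i).symm, hw0,
      LinearMap.id_comp]
  refine LinearMap.ext fun v => funext fun i => ?_
  exact LinearMap.congr_fun (key i) v

end Pool.Agent.HWS
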