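import Mathlib

/-!
# The Herbrand quotient argument

`d h = h d = 0` on `E`, `E' ≤ E` of finite colength, stable under `d` and `h`, and on `E'` the pair
is exact.  If `ker h = im d` on `E` then `ker d = im h` on `E`.
-/

set_option autoImplicit false

namespace Pool.Agent.HWS

section

variable {S E : Type} [CommRing S] [AddCommGroup E] [Module S E]

/-- submodules of equal finite length -/
theorem le_antisymm_of_length {Q : Type} [AddCommGroup Q] [Module S Q] (X Y : Submodule S Q)
    (hXY : X ≤ Y) (hY : Module.length S Y ≠ ⊤) (h : Module.length S X = Module.length S Y) :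
    Y ≤ X := by
  let X' : Submodule S Y := X.submoduleOf Y
  have h1 := Module.length_eq_add_of_exact X'.subtype X'.mkQ (Submodule.subtype_injective _)
    X'.mkQ_surjective (LinearMap.exact_subtype_mkQ X')
  have h2 : Module.length S X' = Module.length S X :=
    (Submodule.submoduleOfEquivOfLe hXY).length_eq
  rw [h2, h] at h1
  have h3 : Module.length S (Y ⧸ X') = 0 := by
    have h4 : Module.length S Y + 0 = Module.length S Y + Module.length S (Y ⧸ X') := by
      rw [add_zero]; exact h1
    exact (ENat.add_right_injective_of_ne_top hY h4).symm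
  rw [Module.length_eq_zero_iff] at h3
  intro y hy
  have h5 : (Submodule.Quotient.mk (⟨y, hy⟩ : Y) : Y ⧸ X') = 0 := Subsingleton.elim _ _
  exact (Submodule.Quotient.mk_eq_zero X').mp h5

theorem length_ker_range {Q : Type} [AddCommGroup Q] [Module S Q] (d : Q →ₗ[S] Q) :
    Module.length S Q = Module.length S (LinearMap.ker d) + Module.length S (LinearMap.range d) := by
  refine Module.length_eq_add_of_exact (LinearMap.ker d).subtype d.rangeRestrict
    (Submodule.subtype_injective _) d.surjective_rangeRestrict ?_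
  intro v
  constructor
  · intro hv
    refine ⟨⟨v, ?_⟩, rfl⟩
    rw [LinearMap.mem_ker]
    exact congrArg Subtype.val hv
  · rintro ⟨w, rfl⟩
    exact Subtype.ext (LinearMap.mem_ker.mp w.2)

theorem herbrand (d h : E →ₗ[S] E) (hdh : ∀ e, d (h e) = 0) (hhd : ∀ e, h (d e) = 0)
    (E' : Submodule S E) (hd' : ∀ e ∈ E', d e ∈ E') (hh' : ∀ e ∈ E', h e ∈ E')
    (ex1 : ∀ e ∈ E', d e = 0 → ∃ e' ∈ E', h e' = e)
    (hfin : Module.length S (E ⧸ E') ≠ ⊤)
    (hH : ∀ e, h e = 0 → ∃ e', d e' = e) :
    ∀ e, d e = 0 → ∃ e', h e' = e := by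
  let dq : (E ⧸ E') →ₗ[S] (E ⧸ E') := E'.mapQ E' d hd'
  let hq : (E ⧸ E') →ₗ[S] (E ⧸ E') := E'.mapQ E' h hh'
  have hdq : ∀ e : E, dq (Submodule.Quotient.mk e) = Submodule.Quotient.mk (d e) := fun e => rfl
  have hhq : ∀ e : E, hq (Submodule.Quotient.mk e) = Submodule.Quotient.mk (h e) := fun e => rfl
  have hmk : ∀ e : E, (Submodule.Quotient.mk e : E ⧸ E') = 0 ↔ e ∈ E' := fun e =>
    Submodule.Quotient.mk_eq_zero E'
  have surj : ∀ q : E ⧸ E', ∃ e : E, Submodule.Quotient.mk e = q := fun q =>
    Submodule.mkQ_surjective E' q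
  -- ker hq = range dq
  have e1 : LinearMap.ker hq = LinearMap.range dq := by
    ext q
    constructor
    · intro hqq
      obtain ⟨e, rfl⟩ := surj q
      rw [LinearMap.mem_ker, hhq, hmk] at hqq
      obtain ⟨e', he', he2⟩ := ex1 (h e) hqq (hdh e)
      have h3 : h (e - e') = 0 := by rw [map_sub, he2, sub_self]
      obtain ⟨e'', he''⟩ := hH _ h3
      refine ⟨Submodule.Quotient.mk e'', ?_⟩
      rw [hdq, he'', Submodule.Quotient.mk_sub, (hmk e').mpr he', sub_zero]
    · rintro ⟨p, rfl⟩
      obtain ⟨e, rfl⟩ := surj p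
      rw [LinearMap.mem_ker, hdq, hhq, hhd]
      exact (hmk 0).mpr E'.zero_mem
  have l1 := length_ker_range dq
  have l2 := length_ker_range hq
  have fr : Module.length S (LinearMap.range dq) ≠ ⊤ := by
    intro h0
    rw [h0, add_top] at l1
    exact hfin l1
  have l3 : Module.length S (LinearMap.ker dq) = Module.length S (LinearMap.range hq) := by
    rw [l1, e1, add_comm] at l2
    exact ENat.add_right_injective_of_ne_top fr l2
  have hle : LinearMap.range hq ≤ LinearMap.ker dq := by
    rintro _ ⟨p, rfl⟩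
    obtain ⟨e, rfl⟩ := surj p
    rw [LinearMap.mem_ker, hhq, hdq, hdh]
    exact (hmk 0).mpr E'.zero_mem
  have fk : Module.length S (LinearMap.ker dq) ≠ ⊤ := by
    intro h0
    rw [h0, top_add] at l1
    exact hfin l1
  have hge := le_antisymm_of_length _ _ hle fk l3.symm
  intro e he
  have h4 : (Submodule.Quotient.mk e : E ⧸ E') ∈ LinearMap.ker dq := by
    rw [LinearMap.mem_ker, hdq, he]
    exact (hmk 0).mpr E'.zero_mem
  obtain ⟨p, hp⟩ := hge h4
  obtain ⟨ψ, rfl⟩ := surj p
  rw [hhq] at hp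
  have h5 : h ψ - e ∈ E' := by
    rw [← hmk, Submodule.Quotient.mk_sub, hp, sub_self]
  have h6 : d (h ψ - e) = 0 := by rw [map_sub, hdh, he, sub_zero]
  obtain ⟨e', _, he2⟩ := ex1 _ h5 h6
  refine ⟨ψ - e', ?_⟩
  rw [map_sub, he2]
  abel

end

end Pool.Agent.HWS
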