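import Pool.Agent.HWS.Hop
import Pool.Agent.HWC.RelProj

/-!
# Relative projectivity, any monic polynomial
-/

set_option autoImplicit false

namespace Pool.Agent.HWS

open Polynomial IsLocalRing Module TensorProduct Pool.Agent.HWC

theorem mu_E (S R M : Type) [CommRing S] [CommRing R] [Algebra S R] [AddCommGroup M]
    [Module S M] [Module R M] [IsScalarTower S R M] (y : R) (θ : M →ₗ[S] M) (k : ℕ) (v : M) :
    RelProj_mu S R M (RelProj_E y θ k v) =
      hopk (Algebra.lsmul S S M y) (Algebra.lsmul S S M y) θ k v := by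
  induction k with
  | zero =>
    have h0 : RelProj_E y θ 0 v = 0 := rfl
    rw [h0, map_zero]
    rfl
  | succ k ih =>
    rw [RelProj_E_succ, map_add, map_smul, ih, RelProj_mu_tmul, one_smul, hopk_succ,
      LinearMap.add_apply, LinearMap.comp_apply, LinearMap.comp_apply]
    congr 1
    rw [← map_pow]
    rfl

theorem relP (S R M : Type) [CommRing S] [CommRing R] [IsLocalRing R]
    [Algebra S R] (pb : PowerBasis S R) (f : S[X]) (hroot : aeval pb.gen f = 0)
    [AddCommGroup M] [Module S M] [Module R M]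
    [IsScalarTower S R M] [Module.Finite R M] [Module.Free S M] (θ : M →ₗ[S] M)
    (hθ : hop f (Algebra.lsmul S S M pb.gen) (Algebra.lsmul S S M pb.gen) θ = LinearMap.id) :
    Module.Free R M := by
  set y := pb.gen with hydef
  set n := pb.dim with hndef
  let σ₀ : M →ₗ[S] R ⊗[S] M :=
    ∑ k ∈ Finset.range (f.natDegree + 1), f.coeff k • RelProj_E y θ k
  have hσ₀ : ∀ v, σ₀ v = ∑ k ∈ Finset.range (f.natDegree + 1), f.coeff k • RelProj_E y θ k v := by
    intro v
    simp only [σ₀, LinearMap.sum_apply, LinearMap.smul_apply]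
  have hroot' : ∑ k ∈ Finset.range (f.natDegree + 1), f.coeff k • y ^ k = 0 := by
    rw [← hroot, aeval_eq_sum_range]
  have hcomm : ∀ v, y • σ₀ v = σ₀ (y • v) := by
    intro v
    rw [← sub_eq_zero, hσ₀, hσ₀, Finset.smul_sum]
    have h1 : ∀ k : ℕ, y • f.coeff k • RelProj_E y θ k v = f.coeff k • RelProj_E y θ k (y • v) +
        f.coeff k • ((y ^ k) ⊗ₜ[S] θ v - (1 : R) ⊗ₜ[S] θ (y ^ k • v)) := by
      intro k
      rw [← RelProj_E_comm, smul_sub, smul_comm]
      abel
    rw [Finset.sum_congr rfl fun k _ => h1 k, Finset.sum_add_distrib]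
    have h3 : ∑ k ∈ Finset.range (f.natDegree + 1), f.coeff k • ((y ^ k) ⊗ₜ[S] θ v) = 0 := by
      have e : ∑ k ∈ Finset.range (f.natDegree + 1), f.coeff k • ((y ^ k) ⊗ₜ[S] θ v) =
          (∑ k ∈ Finset.range (f.natDegree + 1), f.coeff k • y ^ k) ⊗ₜ[S] θ v := by
        rw [TensorProduct.sum_tmul]
        rfl
      rw [e, hroot', TensorProduct.zero_tmul]
    have h4 : ∑ k ∈ Finset.range (f.natDegree + 1), f.coeff k • ((1 : R) ⊗ₜ[S] θ (y ^ k • v)) =
        0 := by
      have e : (1 : R) ⊗ₜ[S] θ ((∑ k ∈ Finset.range (f.natDegree + 1), f.coeff k • y ^ k) • v) =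
          ∑ k ∈ Finset.range (f.natDegree + 1), f.coeff k • ((1 : R) ⊗ₜ[S] θ (y ^ k • v)) := by
        rw [Finset.sum_smul, map_sum, TensorProduct.tmul_sum]
        refine Finset.sum_congr rfl fun j _ => ?_
        rw [smul_assoc, map_smul, TensorProduct.tmul_smul]
      rw [← e, hroot', zero_smul, map_zero, TensorProduct.tmul_zero]
    simp only [smul_sub, Finset.sum_sub_distrib]
    rw [h3, h4]
    abel
  have hpow : ∀ (k : ℕ) (v : M), y ^ k • σ₀ v = σ₀ (y ^ k • v) := by
    intro k
    induction k with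
    | zero => intro v; rw [pow_zero, one_smul, one_smul]
    | succ k ih => intro v; rw [pow_succ, mul_smul, hcomm, ih, ← mul_smul]
  have hlin : ∀ (r : R) (v : M), σ₀ (r • v) = r • σ₀ v := by
    intro r v
    have h1 : r = ∑ j : Fin n, pb.basis.repr r j • y ^ (j : ℕ) := by
      conv_lhs => rw [← pb.basis.sum_repr r]
      refine Finset.sum_congr rfl fun j _ => ?_
      rw [pb.basis_eq_pow]
    rw [h1, Finset.sum_smul, Finset.sum_smul, map_sum]
    refine Finset.sum_congr rfl fun j _ => ?_
    rw [smul_assoc, smul_assoc, map_smul, hpow]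
  let σ : M →ₗ[R] R ⊗[S] M :=
    { toFun := σ₀
      map_add' := map_add σ₀
      map_smul' := hlin }
  let μ : R ⊗[S] M →ₗ[R] M := RelProj_mu S R M
  have hid : ∀ v, μ (σ v) = v := by
    intro v
    have h1 : μ (σ v) = ∑ k ∈ Finset.range (f.natDegree + 1), f.coeff k •
        μ (RelProj_E y θ k v) := by
      show RelProj_mu S R M (σ₀ v) = _
      rw [hσ₀, map_sum]
      refine Finset.sum_congr rfl fun j _ => ?_
      rw [← algebraMap_smul R (f.coeff j), map_smul, algebraMap_smul]
    have h2 := LinearMap.congr_fun hθ v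
    unfold hop at h2
    rw [LinearMap.sum_apply] at h2
    rw [h1]
    refine Eq.trans (Finset.sum_congr rfl fun k _ => ?_) h2
    rw [LinearMap.smul_apply]
    congr 1
    exact mu_E S R M y θ k v
  have hproj : Module.Projective R M := by
    refine Module.Projective.of_split σ μ ?_
    ext v
    exact hid v
  exact Module.free_of_flat_of_isLocalRing

end Pool.Agent.HWS
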