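import Pool.Agent.HWS.Hop
import Pool.Agent.HWS.Herb
import Pool.Agent.HWS.ExistsW
import Pool.Agent.HWS.RelP

/-!
# The core of the proof

`Y` is the multiplication by `y` on `M`.  Step A: `ker h = im d`; step B: `ker d = im h` (Herbrand);
step C: `Lift S M t`.
-/

set_option autoImplicit false

namespace Pool.Agent.HWS

open IsLocalRing Module Polynomial Pool.Agent.HWC

section gen

/-- an `S`-linear map commuting with `y` is `R`-linear, `R = S[y]`. -/
theorem rlin {S R M N : Type} [CommRing S] [CommRing R] [Algebra S R]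
    [AddCommGroup M] [Module S M] [Module R M] [IsScalarTower S R M]
    [AddCommGroup N] [Module S N] [Module R N] [IsScalarTower S R N]
    (y : R) (hy : Algebra.adjoin S {y} = ⊤) (φ : M →ₗ[S] N)
    (h : ∀ m, φ (y • m) = y • φ m) : ∃ φR : M →ₗ[R] N, ∀ m, φR m = φ m := by
  have key : ∀ r : R, ∀ m : M, φ (r • m) = r • φ m := by
    intro r
    have hr : r ∈ Algebra.adjoin S {y} := by rw [hy]; trivial
    induction hr using Algebra.adjoin_induction with
    | mem x hx =>
      rw [Set.mem_singleton_iff] at hx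
      subst hx
      exact h
    | algebraMap s =>
      intro m
      rw [algebraMap_smul, algebraMap_smul, map_smul]
    | add a b _ _ ha hb =>
      intro m
      rw [add_smul, add_smul, map_add, ha, hb]
    | mul a b _ _ ha hb =>
      intro m
      rw [mul_smul, mul_smul, ha, hb]
  exact ⟨⟨⟨φ, φ.map_add⟩, key⟩, fun m => rfl⟩

/-- division by a nonzerodivisor. -/
theorem divide {S M N : Type} [CommRing S] [AddCommGroup M] [Module S M] [AddCommGroup N]
    [Module S N] (s : S) (hs : ∀ v : N, s • v = 0 → v = 0) (g : M →ₗ[S] N)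
    (hg : ∀ m, ∃ w, g m = s • w) : ∃ κ : M →ₗ[S] N, g = s • κ := by
  choose c hc using hg
  have canc : ∀ u v : N, s • u = s • v → u = v := by
    intro u v huv
    have h1 : s • (u - v) = 0 := by rw [smul_sub, huv, sub_self]
    exact sub_eq_zero.mp (hs _ h1)
  refine ⟨⟨⟨c, ?_⟩, ?_⟩, ?_⟩
  · intro u v
    apply canc
    rw [smul_add, ← hc, ← hc, ← hc, map_add]
  · intro r u
    apply canc
    have h1 : g (r • u) = r • g u := map_smul g r u
    rw [← hc, h1, hc u]
    simp only [RingHom.id_apply]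
    rw [smul_comm]
  · exact LinearMap.ext hc

theorem hop_add {S M N : Type} [CommRing S] [AddCommGroup M] [Module S M] [AddCommGroup N]
    [Module S N] (f : S[X]) (a : Module.End S N) (b : Module.End S M) (φ ψ : M →ₗ[S] N) :
    hop f a b (φ + ψ) = hop f a b φ + hop f a b ψ := by
  have h := hop_sub f a b (φ + ψ) ψ
  rw [add_sub_cancel_right] at h
  rw [h]
  abel

/-- finitely generated modules killed by `s` of finite colength -/
theorem killed {S P : Type} [CommRing S] [AddCommGroup P] [Module S P] [Module.Finite S P]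
    (s : S) (hI : Module.length S (S ⧸ Ideal.span {s}) ≠ ⊤) (h : ∀ v : P, s • v = 0) :
    Module.length S P ≠ ⊤ := by
  obtain ⟨n, g, hs⟩ := Module.Finite.exists_fin (R := S) (M := P)
  let f : ∀ i : Fin n, (S ⧸ Ideal.span {s}) →ₗ[S] P := fun i =>
    Submodule.liftQ (Ideal.span {s}) (LinearMap.toSpanSingleton S P (g i)) (by
      intro a ha
      rw [LinearMap.mem_ker, LinearMap.toSpanSingleton_apply]
      obtain ⟨b, rfl⟩ := Ideal.mem_span_singleton'.mp ha
      rw [mul_smul, h, smul_zero])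
  let F : (Fin n → S ⧸ Ideal.span {s}) →ₗ[S] P := ∑ i, f i ∘ₗ LinearMap.proj i
  have hF : ∀ v, F v = ∑ i, f i (v i) := by
    intro v
    simp [F]
  have hsurj : Function.Surjective F := by
    rw [← LinearMap.range_eq_top, eq_top_iff, ← hs, Submodule.span_le]
    rintro _ ⟨i, rfl⟩
    refine ⟨Pi.single i (Submodule.Quotient.mk 1), ?_⟩
    rw [hF, Finset.sum_eq_single i]
    · rw [Pi.single_eq_same]
      change LinearMap.toSpanSingleton S P (g i) 1 = g i
      simp
    · intro j _ hj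
      rw [Pi.single_eq_of_ne hj, map_zero]
    · intro hi
      exact absurd (Finset.mem_univ i) hi
  have h1 := Module.length_le_of_surjective F hsurj
  refine ne_top_of_le_ne_top ?_ h1
  rw [Module.length_pi, ENat.card_eq_coe_fintype_card]
  exact WithTop.mul_ne_top (ENat.natCast_ne_top _) hI

theorem nil_sub {E : Type} [Ring E] (L P : E) (h : Commute L P) (p a : ℕ) (hp : p.Prime)
    (hpn : IsNilpotent (p : E)) (s : E) (hsL : Commute s L) (hsP : Commute s P)
    (hL : IsNilpotent (L ^ (p ^ a) - s)) (hP : IsNilpotent (P ^ (p ^ a) - s)) :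
    IsNilpotent (L - P) := by
  have c1 : Commute (L - P) P := h.sub_left (Commute.refl P)
  obtain ⟨r, hr⟩ : ∃ r, L ^ p ^ a = (L - P) ^ p ^ a + P ^ p ^ a + (p : E) * r := by
    obtain ⟨r, hr⟩ := c1.exists_add_pow_prime_pow_eq hp a
    rw [sub_add_cancel] at hr
    exact ⟨(L - P) * P * r, by rw [hr]; simp only [mul_assoc]⟩
  have e1 : (p : E) * r = (L ^ (p ^ a) - s) - (P ^ (p ^ a) - s) - (L - P) ^ (p ^ a) := by
    rw [hr]; abel
  have hpr : IsNilpotent ((p : E) * r) := (Nat.cast_commute p r).isNilpotent_mul_right hpn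
  have c2 : Commute (L ^ (p ^ a) - s) (P ^ (p ^ a) - s) :=
    ((h.pow_pow _ _).sub_right (hsL.symm.pow_left _)).sub_left
      ((hsP.pow_right _).sub_right (Commute.refl s))
  have h2 := c2.isNilpotent_sub hL hP
  have c3 : Commute ((L ^ (p ^ a) - s) - (P ^ (p ^ a) - s)) ((p : E) * r) := by
    have c4 : Commute ((L ^ (p ^ a) - s) - (P ^ (p ^ a) - s)) ((L - P) ^ (p ^ a)) := by
      refine Commute.pow_right ?_ _
      have c5 : Commute (L ^ (p ^ a) - s) (L - P) :=
        (((Commute.refl L).pow_left _).sub_left hsL).sub_right ((h.pow_left _).sub_left hsP)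
      have c6 : Commute (P ^ (p ^ a) - s) (L - P) :=
        ((h.symm.pow_left _).sub_left hsL).sub_right (((Commute.refl P).pow_left _).sub_left hsP)
      exact c5.sub_left c6
    rw [e1]
    exact (Commute.refl _).sub_right c4
  have h3 := c3.isNilpotent_sub h2 hpr
  have h4 : (L ^ (p ^ a) - s) - (P ^ (p ^ a) - s) - (p : E) * r = (L - P) ^ (p ^ a) := by
    rw [e1]; abel
  rw [h4] at h3
  exact IsNilpotent.of_pow h3

end gen

section core

variable (S R M : Type) [CommRing S] [CommRing R] [Algebra S R]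
  [AddCommGroup M] [Module S M] [Module R M] [IsScalarTower S R M]

/-- multiplication by `y` -/
noncomputable abbrev mY (y : R) : Module.End S M := Algebra.lsmul S S M y

variable {S R M}

theorem mY_nat {N : Type} [AddCommGroup N] [Module S N] [Module R N] [IsScalarTower S R N]
    (y : R) (g : M →ₗ[R] N) :
    (mY S R N y) ∘ₗ g.restrictScalars S = g.restrictScalars S ∘ₗ (mY S R M y) := by
  refine LinearMap.ext fun m => ?_
  exact (map_smul g y m).symm

/-- step A -/
theorem stepA (pb : PowerBasis S R) (f : S[X])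
    (hw : ∀ q : ℕ, ∃ w : Module.End S (Fin q → R), hop f (mY S R (Fin q → R) pb.gen)
      (mY S R (Fin q → R) pb.gen) w = LinearMap.id)
    (t : S) (htM : ∀ m : M, t • m = 0 → m = 0) (q : ℕ)
    (hAF : AF R M (algebraMap S R t) q) (hL : ∀ k : ℕ, Lift R M (algebraMap S R t ^ k))
    (ψ : M →ₗ[S] M) (hψ : hop f (mY S R M pb.gen) (mY S R M pb.gen) ψ = 0) :
    ∃ κ : M →ₗ[S] M, mY S R M pb.gen ∘ₗ κ - κ ∘ₗ mY S R M pb.gen = ψ := by
  obtain ⟨N, j, p, hjp, hpj⟩ := hAF
  obtain ⟨w, hw⟩ := hw q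
  set y := pb.gen with hy
  have hadj : Algebra.adjoin S {y} = ⊤ := pb.adjoin_gen_eq_top
  let jS := j.restrictScalars S
  let pS := p.restrictScalars S
  have hj : (mY S R M y) ∘ₗ jS = jS ∘ₗ mY S R (Fin q → R) y := mY_nat y j
  have hp : (mY S R (Fin q → R) y) ∘ₗ pS = pS ∘ₗ mY S R M y := mY_nat y p
  have h0 : hop f (mY S R (Fin q → R) y) (mY S R (Fin q → R) y) (pS ∘ₗ ψ ∘ₗ jS) = 0 := by
    rw [← hop_nat_left f (mY S R M y) (mY S R (Fin q → R) y) (mY S R (Fin q → R) y) pS hp.symm,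
      ← hop_nat_right f (mY S R M y) (mY S R M y) (mY S R (Fin q → R) y) jS hj, hψ]
    simp
  obtain ⟨T, hT⟩ := hop_homotopy f (mY S R (Fin q → R) y) (mY S R (Fin q → R) y) w (pS ∘ₗ ψ ∘ₗ jS)
  rw [h0, hw] at hT
  let T' : M →ₗ[S] M := -(jS ∘ₗ T ∘ₗ pS)
  have ht2 : ∀ m : M, algebraMap S R t ^ (N + N) • m = t ^ (N + N) • m := by
    intro m
    rw [← map_pow, algebraMap_smul]
  have hjp' : ∀ m : M, jS (pS m) = t ^ N • m := by
    intro m
    have := hjp m
    rw [← map_pow, algebraMap_smul] at this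
    exact this
  have hT' : ∀ m : M, y • T' m - T' (y • m) = t ^ (N + N) • ψ m := by
    intro m
    have e1 : y • jS (T (pS m)) = jS (y • T (pS m)) := (map_smul j y _).symm
    have e2 : pS (y • m) = y • pS m := map_smul p y m
    have e3 := LinearMap.congr_fun hT (pS m)
    simp only [LinearMap.sub_apply, LinearMap.comp_apply, LinearMap.zero_apply,
      LinearMap.id_apply, zero_sub] at e3
    have e3' : y • T (pS m) - T (y • pS m) = - pS (ψ (jS (pS m))) := e3
    change y • (-(jS (T (pS m)))) - (-(jS (T (pS (y • m))))) = _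
    rw [smul_neg, e1, e2, sub_neg_eq_add, neg_add_eq_sub, ← map_sub]
    have e4 : T (y • pS m) - y • T (pS m) = pS (ψ (jS (pS m))) := by
      rw [← neg_sub, e3', neg_neg]
    rw [e4, hjp', hjp', map_smul, smul_smul, ← pow_add]
  -- modulo `t ^ 2N`
  let X : Submodule R M := LinearMap.range (LinearMap.lsmul R M (algebraMap S R t ^ (N + N)))
  have hkR : ∀ m : M, X.mkQ m = 0 ↔ ∃ v : M, m = algebraMap S R t ^ (N + N) • v := by
    intro m
    rw [show X.mkQ m = 0 ↔ m ∈ X from Submodule.Quotient.mk_eq_zero X]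
    constructor
    · rintro ⟨v, hv⟩; exact ⟨v, hv.symm⟩
    · rintro ⟨v, hv⟩; exact ⟨v, hv.symm⟩
  obtain ⟨φR, hφR⟩ := rlin y hadj (X.mkQ.restrictScalars S ∘ₗ T') (by
    intro m
    change X.mkQ (T' (y • m)) = y • X.mkQ (T' m)
    rw [← map_smul, ← sub_eq_zero, ← map_sub, hkR]
    refine ⟨-ψ m, ?_⟩
    rw [ht2, smul_neg, ← hT' m, neg_sub])
  obtain ⟨ψR, hψR⟩ := hL (N + N) (M ⧸ X) X.mkQ X.mkQ_surjective hkR φR
  have htp : ∀ (k : ℕ) (m : M), t ^ k • m = 0 → m = 0 := by
    intro k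
    induction k with
    | zero => intro m hm; rwa [pow_zero, one_smul] at hm
    | succ k ih =>
      intro m hm
      rw [pow_succ, mul_smul] at hm
      exact htM m (ih _ hm)
  obtain ⟨κ, hκ⟩ := divide (t ^ (N + N)) (htp _) (T' - ψR.restrictScalars S) (by
    intro m
    have h1 : X.mkQ (T' m - ψR m) = 0 := by
      rw [map_sub, hψR, hφR, sub_eq_zero]
      rfl
    obtain ⟨v, hv⟩ := (hkR _).mp h1
    exact ⟨v, by rw [← ht2]; exact hv⟩)
  refine ⟨κ, LinearMap.ext fun m => ?_⟩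
  have h2 : t ^ (N + N) • ((y • κ m - κ (y • m)) - ψ m) = 0 := by
    have e1 := LinearMap.congr_fun hκ m
    have e2 := LinearMap.congr_fun hκ (y • m)
    simp only [LinearMap.sub_apply, LinearMap.smul_apply, LinearMap.restrictScalars_apply] at e1 e2
    have e3 : ψR (y • m) = y • ψR m := map_smul ψR y m
    rw [smul_sub, smul_sub, smul_comm (t ^ (N + N)) y, ← e1, ← e2, ← hT' m, smul_sub, e3]
    abel
  exact sub_eq_zero.mp (htp _ _ h2)

/-- step B -/
theorem stepB [IsNoetherianRing S] [Module.Finite S M] (pb : PowerBasis S R) (f : S[X])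
    (hroot : aeval pb.gen f = 0)
    (hw : ∀ q : ℕ, ∃ w : Module.End S (Fin q → R), hop f (mY S R (Fin q → R) pb.gen)
      (mY S R (Fin q → R) pb.gen) w = LinearMap.id)
    (t : S) (htR : ∀ r : R, t • r = 0 → r = 0)
    (hfin : ∀ k : ℕ, Module.length S (S ⧸ Ideal.span {t ^ k}) ≠ ⊤) (q : ℕ)
    (hAF : AF R M (algebraMap S R t) q)
    (hA : ∀ ψ : M →ₗ[S] M, hop f (mY S R M pb.gen) (mY S R M pb.gen) ψ = 0 →
      ∃ κ : M →ₗ[S] M, mY S R M pb.gen ∘ₗ κ - κ ∘ₗ mY S R M pb.gen = ψ)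
    (e : M →ₗ[S] M) (he : mY S R M pb.gen ∘ₗ e - e ∘ₗ mY S R M pb.gen = 0) :
    ∃ κ : M →ₗ[S] M, hop f (mY S R M pb.gen) (mY S R M pb.gen) κ = e := by
  obtain ⟨N, j, p, hjp, hpj⟩ := hAF
  obtain ⟨w, hw⟩ := hw q
  set y := pb.gen with hy
  let jS := j.restrictScalars S
  let pS := p.restrictScalars S
  have hj : (mY S R M y) ∘ₗ jS = jS ∘ₗ mY S R (Fin q → R) y := mY_nat y j
  have hp : (mY S R (Fin q → R) y) ∘ₗ pS = pS ∘ₗ mY S R M y := mY_nat y p
  have hjp' : ∀ m : M, jS (pS m) = t ^ N • m := by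
    intro m
    have := hjp m
    rw [← map_pow, algebraMap_smul] at this
    exact this
  have hpj' : ∀ v : Fin q → R, pS (jS v) = t ^ N • v := by
    intro v
    have := hpj v
    rw [← map_pow, algebraMap_smul] at this
    exact this
  have hrM : aeval (mY S R M y) f = 0 := aeval_lsmul y f hroot
  let d : (M →ₗ[S] M) →ₗ[S] (M →ₗ[S] M) :=
    { toFun := fun φ => mY S R M y ∘ₗ φ - φ ∘ₗ mY S R M y
      map_add' := fun φ ψ => by rw [LinearMap.comp_add, LinearMap.add_comp]; abel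
      map_smul' := fun s φ => by
        rw [RingHom.id_apply, LinearMap.comp_smul, LinearMap.smul_comp, smul_sub] }
  let h : (M →ₗ[S] M) →ₗ[S] (M →ₗ[S] M) :=
    { toFun := fun φ => hop f (mY S R M y) (mY S R M y) φ
      map_add' := fun φ ψ => hop_add f _ _ φ ψ
      map_smul' := fun s φ => hop_smul f _ _ s φ }
  let c : ((Fin q → R) →ₗ[S] (Fin q → R)) →ₗ[S] (M →ₗ[S] M) :=
    { toFun := fun φ => jS ∘ₗ φ ∘ₗ pS
      map_add' := fun φ ψ => by rw [LinearMap.add_comp, LinearMap.comp_add]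
      map_smul' := fun s φ => by
        rw [RingHom.id_apply, LinearMap.smul_comp, LinearMap.comp_smul] }
  have hdc : ∀ φ : (Fin q → R) →ₗ[S] (Fin q → R), d (c φ) =
      c (mY S R (Fin q → R) y ∘ₗ φ - φ ∘ₗ mY S R (Fin q → R) y) := by
    intro φ
    change mY S R M y ∘ₗ (jS ∘ₗ φ ∘ₗ pS) - (jS ∘ₗ φ ∘ₗ pS) ∘ₗ mY S R M y =
      jS ∘ₗ (mY S R (Fin q → R) y ∘ₗ φ - φ ∘ₗ mY S R (Fin q → R) y) ∘ₗ pS
    refine LinearMap.ext fun m => ?_
    have e1 := LinearMap.congr_fun hj (φ (pS m))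
    have e2 := LinearMap.congr_fun hp m
    simp only [LinearMap.sub_apply, LinearMap.comp_apply, map_sub] at e1 e2 ⊢
    rw [e1, e2]
  have hhc : ∀ φ : (Fin q → R) →ₗ[S] (Fin q → R), h (c φ) =
      c (hop f (mY S R (Fin q → R) y) (mY S R (Fin q → R) y) φ) := by
    intro φ
    change hop f (mY S R M y) (mY S R M y) (jS ∘ₗ φ ∘ₗ pS) =
      jS ∘ₗ (hop f (mY S R (Fin q → R) y) (mY S R (Fin q → R) y) φ) ∘ₗ pS
    rw [← hop_nat_left f (mY S R (Fin q → R) y) (mY S R M y) (mY S R M y) jS hj.symm,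
      ← hop_nat_right f (mY S R (Fin q → R) y) (mY S R (Fin q → R) y) (mY S R M y) pS hp]
  have htp : ∀ (k : ℕ) (r : R), t ^ k • r = 0 → r = 0 := by
    intro k
    induction k with
    | zero => intro r hr; rwa [pow_zero, one_smul] at hr
    | succ k ih =>
      intro r hr
      rw [pow_succ, mul_smul] at hr
      exact htR r (ih _ hr)
  have htF : ∀ (k : ℕ) (v : Fin q → R), t ^ k • v = 0 → v = 0 := by
    intro k v hv
    funext i
    exact htp k _ (congrFun hv i)
  have key := herbrand d h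
    (fun φ => by
      change mY S R M y ∘ₗ hop f (mY S R M y) (mY S R M y) φ -
        hop f (mY S R M y) (mY S R M y) φ ∘ₗ mY S R M y = 0
      rw [hop_comm, hrM]
      simp)
    (fun φ => by
      change hop f (mY S R M y) (mY S R M y) (mY S R M y ∘ₗ φ - φ ∘ₗ mY S R M y) = 0
      rw [hop_delta, hrM]
      simp)
    (LinearMap.range c)
    (by rintro _ ⟨φ, rfl⟩; rw [hdc]; exact ⟨_, rfl⟩)
    (by rintro _ ⟨φ, rfl⟩; rw [hhc]; exact ⟨_, rfl⟩)
    (by
      rintro _ ⟨φ, rfl⟩ h0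
      rw [hdc] at h0
      have h1 : mY S R (Fin q → R) y ∘ₗ φ - φ ∘ₗ mY S R (Fin q → R) y = 0 := by
        refine LinearMap.ext fun v => htF (N + N) _ ?_
        have h2 := LinearMap.congr_fun h0 (jS v)
        change jS ((mY S R (Fin q → R) y ∘ₗ φ - φ ∘ₗ mY S R (Fin q → R) y) (pS (jS v))) = 0 at h2
        have h3 := congrArg pS h2
        rw [hpj', hpj', map_smul, smul_smul, ← pow_add, map_zero] at h3
        exact h3
      refine ⟨c (φ ∘ₗ w), ⟨_, rfl⟩, ?_⟩
      rw [hhc, ← hop_nat_left f (mY S R (Fin q → R) y) (mY S R (Fin q → R) y)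
        (mY S R (Fin q → R) y) φ (sub_eq_zero.mp h1).symm, hw, LinearMap.comp_id])
    (by
      have : Module.Finite S (M →ₗ[S] M) := inferInstance
      refine killed (t ^ (N + N)) (hfin _) ?_
      intro v
      obtain ⟨ψ, rfl⟩ := Submodule.mkQ_surjective _ v
      rw [← map_smul]
      refine (Submodule.Quotient.mk_eq_zero _).mpr ⟨pS ∘ₗ ψ ∘ₗ jS, ?_⟩
      refine LinearMap.ext fun m => ?_
      change jS (pS (ψ (jS (pS m)))) = t ^ (N + N) • ψ m
      rw [hjp', hjp', map_smul, smul_smul, ← pow_add])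
    hA
  exact key e he

/-- step C, for the quotient by `t` as an `R`-module -/
theorem stepC0 (pb : PowerBasis S R) (f : S[X])
    (hroot : aeval pb.gen f = 0) (t : S) (htM : ∀ m : M, t • m = 0 → m = 0)
    (hL : Lift R M (algebraMap S R t))
    (hA : ∀ ψ : M →ₗ[S] M, hop f (mY S R M pb.gen) (mY S R M pb.gen) ψ = 0 →
      ∃ κ : M →ₗ[S] M, mY S R M pb.gen ∘ₗ κ - κ ∘ₗ mY S R M pb.gen = ψ)
    (hB : ∀ e : M →ₗ[S] M, mY S R M pb.gen ∘ₗ e - e ∘ₗ mY S R M pb.gen = 0 →
      ∃ κ : M →ₗ[S] M, hop f (mY S R M pb.gen) (mY S R M pb.gen) κ = e)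
    (N : Type) [AddCommGroup N] [Module S N] [Module R N] [IsScalarTower S R N]
    (π : M →ₗ[R] N) (hπ : Function.Surjective π)
    (hk : ∀ m : M, π m = 0 ↔ ∃ v : M, m = algebraMap S R t • v)
    (φ : M →ₗ[S] N) (θ : M →ₗ[S] M)
    (hθ : ∀ m, π (θ m) = (mY S R N pb.gen ∘ₗ φ - φ ∘ₗ mY S R M pb.gen) m) :
    ∃ ψ : M →ₗ[S] M, ∀ m, π (ψ m) = φ m := by
  set y := pb.gen with hy
  let πS : M →ₗ[S] N := π.restrictScalars S
  have hrM : aeval (mY S R M y) f = 0 := aeval_lsmul y f hroot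
  have hrN : aeval (mY S R N y) f = 0 := aeval_lsmul y f hroot
  have hnat : πS ∘ₗ mY S R M y = mY S R N y ∘ₗ πS := (mY_nat y π).symm
  have h1 : πS ∘ₗ θ = mY S R N y ∘ₗ φ - φ ∘ₗ mY S R M y := LinearMap.ext hθ
  have h2 : πS ∘ₗ hop f (mY S R M y) (mY S R M y) θ = 0 := by
    rw [hop_nat_left f (mY S R M y) (mY S R N y) (mY S R M y) πS hnat, h1, hop_delta, hrM, hrN]
    simp
  obtain ⟨κ, hκ⟩ := divide t htM (hop f (mY S R M y) (mY S R M y) θ) (by
    intro m
    obtain ⟨v, hv⟩ := (hk _).mp (LinearMap.congr_fun h2 m)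
    exact ⟨v, by rw [hv, algebraMap_smul]⟩)
  obtain ⟨θ1, hθ1⟩ := hB κ (by
    have h3 := hop_comm f (mY S R M y) (mY S R M y) θ
    rw [hκ, hrM] at h3
    refine LinearMap.ext fun m => htM _ ?_
    have h4 := LinearMap.congr_fun h3 m
    simp only [LinearMap.sub_apply, LinearMap.comp_apply, LinearMap.smul_apply, map_smul,
      LinearMap.zero_apply, map_zero, sub_zero] at h4 ⊢
    rw [smul_sub]
    exact h4)
  obtain ⟨φ1, hφ1⟩ := hA (θ - t • θ1) (by rw [hop_sub, hop_smul, hθ1, hκ, sub_self])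
  have ht0 : ∀ m : M, π (t • m) = 0 := fun m => (hk _).mpr ⟨m, by rw [algebraMap_smul]⟩
  obtain ⟨φR, hφR⟩ := rlin y pb.adjoin_gen_eq_top (φ - πS ∘ₗ φ1) (by
    intro m
    have e1 := LinearMap.congr_fun hφ1 m
    have e2 := hθ m
    have e1' : y • φ1 m - φ1 (y • m) = θ m - t • θ1 m := e1
    have e2' : π (θ m) = y • φ m - φ (y • m) := e2
    have e3 : y • π (φ1 m) - π (φ1 (y • m)) = y • φ m - φ (y • m) := by
      rw [← e2', ← map_smul, ← map_sub, e1', map_sub, ht0, sub_zero]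
    change φ (y • m) - π (φ1 (y • m)) = y • (φ m - π (φ1 m))
    rw [smul_sub]
    have e4 : y • π (φ1 m) = y • φ m - φ (y • m) + π (φ1 (y • m)) := by
      rw [← e3]; abel
    rw [e4]
    abel)
  obtain ⟨ψR, hψR⟩ := hL N π hπ hk φR
  refine ⟨φ1 + ψR.restrictScalars S, fun m => ?_⟩
  have e5 : φR m = φ m - π (φ1 m) := hφR m
  rw [LinearMap.add_apply, map_add, LinearMap.restrictScalars_apply, hψR, e5]
  abel

/-- step C: all `S`-linear maps to `M / tM` lift. -/
theorem stepC (pb : PowerBasis S R) (f : S[X])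
    (hroot : aeval pb.gen f = 0) (t : S) (htM : ∀ m : M, t • m = 0 → m = 0)
    (hnil : (∃ K : ℕ, algebraMap S R t ∣ pb.gen ^ K) ∨
      ∃ (p a : ℕ) (s : S) (J K : ℕ), p.Prime ∧ t ∣ (p : S) ^ J ∧
        algebraMap S R t ∣ (pb.gen ^ (p ^ a) - algebraMap S R s) ^ K)
    (hL : Lift R M (algebraMap S R t))
    (hA : ∀ ψ : M →ₗ[S] M, hop f (mY S R M pb.gen) (mY S R M pb.gen) ψ = 0 →
      ∃ κ : M →ₗ[S] M, mY S R M pb.gen ∘ₗ κ - κ ∘ₗ mY S R M pb.gen = ψ)
    (hB : ∀ e : M →ₗ[S] M, mY S R M pb.gen ∘ₗ e - e ∘ₗ mY S R M pb.gen = 0 →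
      ∃ κ : M →ₗ[S] M, hop f (mY S R M pb.gen) (mY S R M pb.gen) κ = e) :
    Lift S M t := by
  let X : Submodule R M := LinearMap.range (LinearMap.lsmul R M (algebraMap S R t))
  have hkR : ∀ m : M, X.mkQ m = 0 ↔ ∃ v : M, m = algebraMap S R t • v := by
    intro m
    rw [show X.mkQ m = 0 ↔ m ∈ X from Submodule.Quotient.mk_eq_zero X]
    constructor
    · rintro ⟨v, hv⟩; exact ⟨v, hv.symm⟩
    · rintro ⟨v, hv⟩; exact ⟨v, hv.symm⟩
  have ht0 : ∀ v : M ⧸ X, algebraMap S R t • v = 0 := by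
    intro v
    obtain ⟨m, rfl⟩ := X.mkQ_surjective v
    rw [← map_smul]
    exact (hkR _).mpr ⟨m, rfl⟩
  -- the operator `D`
  let L : R → Module.End S (M →ₗ[S] (M ⧸ X)) := fun z =>
    { toFun := fun φ => mY S R (M ⧸ X) z ∘ₗ φ
      map_add' := fun φ ψ => LinearMap.comp_add _ _ _
      map_smul' := fun s φ => by rw [RingHom.id_apply, LinearMap.comp_smul] }
  let P : R → Module.End S (M →ₗ[S] (M ⧸ X)) := fun z =>
    { toFun := fun φ => φ ∘ₗ mY S R M z
      map_add' := fun φ ψ => LinearMap.add_comp _ _ _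
      map_smul' := fun s φ => by rw [RingHom.id_apply, LinearMap.smul_comp] }
  have hLP : ∀ z w, Commute (L z) (P w) := fun z w =>
    LinearMap.ext fun φ => LinearMap.ext fun m => rfl
  have hLk : ∀ (z : R) (k : ℕ), L z ^ k = L (z ^ k) := by
    intro z k
    induction k with
    | zero =>
      refine LinearMap.ext fun φ => LinearMap.ext fun m => ?_
      change φ m = z ^ 0 • φ m
      rw [pow_zero, one_smul]
    | succ k ih =>
      rw [pow_succ, ih]
      refine LinearMap.ext fun φ => LinearMap.ext fun m => ?_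
      change z ^ k • z • φ m = z ^ (k + 1) • φ m
      rw [pow_succ, mul_smul]
  have hPk : ∀ (z : R) (k : ℕ), P z ^ k = P (z ^ k) := by
    intro z k
    induction k with
    | zero =>
      refine LinearMap.ext fun φ => LinearMap.ext fun m => ?_
      change φ m = φ (z ^ 0 • m)
      rw [pow_zero, one_smul]
    | succ k ih =>
      rw [pow_succ, ih]
      refine LinearMap.ext fun φ => LinearMap.ext fun m => ?_
      change φ (z • z ^ k • m) = φ (z ^ (k + 1) • m)
      rw [pow_succ', mul_smul]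
  have hL0 : ∀ z : R, algebraMap S R t ∣ z → L z = 0 := by
    rintro _ ⟨r0, rfl⟩
    refine LinearMap.ext fun φ => LinearMap.ext fun m => ?_
    change (algebraMap S R t * r0) • φ m = 0
    rw [mul_smul, ht0]
  have hP0 : ∀ z : R, algebraMap S R t ∣ z → P z = 0 := by
    rintro _ ⟨r0, rfl⟩
    refine LinearMap.ext fun φ => LinearMap.ext fun m => ?_
    change φ ((algebraMap S R t * r0) • m) = 0
    rw [mul_smul, algebraMap_smul, map_smul, ← algebraMap_smul R t, ht0]
  have hnn : IsNilpotent (L pb.gen - P pb.gen) := by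
    rcases hnil with ⟨K, hK⟩ | ⟨p, a, s, J, K, hp, hJ, hK⟩
    · have hLn : IsNilpotent (L pb.gen) := ⟨K, by rw [hLk, hL0 _ hK]⟩
      have hPn : IsNilpotent (P pb.gen) := ⟨K, by rw [hPk, hP0 _ hK]⟩
      exact Commute.isNilpotent_sub (R := Module.End S (M →ₗ[S] (M ⧸ X))) (hLP _ _)
        (by exact hLn) (by exact hPn)
    · let σ : Module.End S (M →ₗ[S] (M ⧸ X)) := algebraMap S _ s
      have hLs : L pb.gen ^ (p ^ a) - σ = L (pb.gen ^ (p ^ a) - algebraMap S R s) := by
        rw [hLk]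
        refine LinearMap.ext fun φ => LinearMap.ext fun m => ?_
        change pb.gen ^ (p ^ a) • φ m - s • φ m = (pb.gen ^ (p ^ a) - algebraMap S R s) • φ m
        rw [sub_smul, algebraMap_smul]
      have hPs : P pb.gen ^ (p ^ a) - σ = P (pb.gen ^ (p ^ a) - algebraMap S R s) := by
        rw [hPk]
        refine LinearMap.ext fun φ => LinearMap.ext fun m => ?_
        change φ (pb.gen ^ (p ^ a) • m) - s • φ m = φ ((pb.gen ^ (p ^ a) - algebraMap S R s) • m)
        rw [sub_smul, algebraMap_smul, map_sub, map_smul φ s m]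
      refine nil_sub (L pb.gen) (P pb.gen) (hLP _ _) p a hp ⟨J, ?_⟩ σ
        (Algebra.commute_algebraMap_left _ _) (Algebra.commute_algebraMap_left _ _)
        ⟨K, by rw [hLs, hLk, hL0 _ hK]⟩ ⟨K, by rw [hPs, hPk, hP0 _ hK]⟩
      obtain ⟨c, hc⟩ := hJ
      have e1 : ((p : ℕ) : Module.End S (M →ₗ[S] (M ⧸ X))) = algebraMap S _ (p : S) := by
        rw [map_natCast]
      rw [e1, ← map_pow, hc]
      refine LinearMap.ext fun φ => LinearMap.ext fun m => ?_
      change (t * c) • φ m = 0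
      rw [mul_smul, ← algebraMap_smul R t, ht0]
  obtain ⟨n, hn⟩ := hnn
  have hD : ∀ (k : ℕ) (φ : M →ₗ[S] (M ⧸ X)),
      (((L pb.gen - P pb.gen) ^ k : Module.End S (M →ₗ[S] (M ⧸ X))) φ) = 0 →
      ∃ ψ : M →ₗ[S] M, ∀ m, X.mkQ (ψ m) = φ m := by
    intro k
    induction k with
    | zero =>
      intro φ h0
      rw [pow_zero] at h0
      have h1 : φ = 0 := h0
      exact ⟨0, fun m => by rw [h1]; simp⟩
    | succ k ih =>
      intro φ h0
      rw [pow_succ, Module.End.mul_apply] at h0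
      obtain ⟨θ, hθ⟩ := ih _ h0
      exact stepC0 pb f hroot t htM hL hA hB (M ⧸ X) X.mkQ X.mkQ_surjective hkR φ θ hθ
  have hall : ∀ φ : M →ₗ[S] (M ⧸ X), ∃ ψ : M →ₗ[S] M, ∀ m, X.mkQ (ψ m) = φ m := by
    intro φ
    refine hD n φ ?_
    rw [hn]
    rfl
  -- transfer to any model of the quotient
  intro N _ _ π hπ hk φ
  have key : ∀ u v : M, π u = π v → X.mkQ u = X.mkQ v := by
    intro u v huv
    rw [← sub_eq_zero, ← map_sub, hkR]
    have h1 : π (u - v) = 0 := by rw [map_sub, huv, sub_self]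
    obtain ⟨w, hw⟩ := (hk _).mp h1
    exact ⟨w, by rw [hw, algebraMap_smul]⟩
  choose c hc using hπ
  let g : N →ₗ[S] (M ⧸ X) :=
    { toFun := fun u => X.mkQ (c u)
      map_add' := fun u v => by
        rw [← map_add]
        apply key
        rw [hc, map_add, hc, hc]
      map_smul' := fun s u => by
        have h1 : s • X.mkQ (c u) = X.mkQ (s • c u) := rfl
        rw [RingHom.id_apply, h1]
        apply key
        rw [hc, map_smul, hc] }
  obtain ⟨ψ, hψ⟩ := hall (g ∘ₗ φ)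
  refine ⟨ψ, fun m => ?_⟩
  have h1 : X.mkQ (ψ m) = X.mkQ (c (φ m)) := hψ m
  rw [← sub_eq_zero, ← map_sub, hkR] at h1
  obtain ⟨w, hw⟩ := h1
  have h2 : π (ψ m - c (φ m)) = 0 := (hk _).mpr ⟨w, by rw [hw, algebraMap_smul]⟩
  rw [map_sub, hc, sub_eq_zero] at h2
  exact h2

end core

end Pool.Agent.HWS
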