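import Mathlib

/-! `R` free of finite rank over `S` and generated by `y`: a power basis and a monic polynomial. -/

set_option autoImplicit false

namespace Pool.Agent.HWS

open Module Polynomial

theorem exists_pb (S R : Type) [CommRing S] [IsDomain S] [CommRing R] [Algebra S R]
    [Module.Finite S R] [Module.Free S R] (y : R) (hadj : Algebra.adjoin S {y} = ⊤) :
    ∃ (pb : PowerBasis S R) (f : S[X]), pb.gen = y ∧ f.Monic ∧ f.natDegree = pb.dim ∧
      pb.dim = finrank S R ∧ aeval y f = 0 := by
  let f : S[X] := (Algebra.lmul S R y).charpoly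
  have hf : f.Monic := LinearMap.charpoly_monic _
  have hdeg : f.natDegree = finrank S R := LinearMap.charpoly_natDegree _
  have hroot : aeval y f = 0 := by
    have h1 : aeval (Algebra.lmul S R y) f = 0 := LinearMap.aeval_self_charpoly _
    rw [Polynomial.aeval_algHom_apply] at h1
    have h2 := LinearMap.congr_fun h1 1
    simpa using h2
  let g : AdjoinRoot f →ₐ[S] R := AdjoinRoot.liftAlgHom f (Algebra.ofId S R) y (by
    rw [← hroot]; rfl)
  have hgy : g (AdjoinRoot.root f) = y := by simp [g]
  have hsurj : Function.Surjective g := by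
    rw [← AlgHom.range_eq_top, eq_top_iff, ← hadj, Algebra.adjoin_le_iff,
      Set.singleton_subset_iff]
    exact ⟨_, hgy⟩
  let pb' := AdjoinRoot.powerBasis' hf
  have hd' : pb'.dim = finrank S R := hdeg
  have hfr : finrank S (AdjoinRoot f) = finrank S R := by rw [pb'.finrank, hd']
  have : Module.Free S (AdjoinRoot f) := Module.Free.of_basis pb'.basis
  have : Module.Finite S (AdjoinRoot f) := pb'.finite
  let e0 : R ≃ₗ[S] AdjoinRoot f := LinearEquiv.ofFinrankEq _ _ hfr.symm
  have hinj : Function.Injective g := by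
    have h3 : Function.Surjective (g.toLinearMap ∘ₗ e0.toLinearMap) :=
      hsurj.comp e0.surjective
    have h4 := OrzechProperty.injective_of_surjective_endomorphism _ h3
    intro a b hab
    obtain ⟨a', rfl⟩ := e0.surjective a
    obtain ⟨b', rfl⟩ := e0.surjective b
    exact congrArg e0 (h4 hab)
  let e : AdjoinRoot f ≃ₐ[S] R := AlgEquiv.ofBijective g ⟨hinj, hsurj⟩
  refine ⟨pb'.map e, f, ?_, hf, ?_, ?_, hroot⟩
  · exact hgy
  · exact hdeg.trans hd'.symm
  · exact hd'

end Pool.Agent.HWS
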