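import Pool.Agent.HWS.Core
import Pool.Agent.HWS.PBasis
import Pool.Agent.HWC.MainM

/-! (HWC) passes from `S` to `R = S[y]`, free of finite rank, `y` in the maximal ideal. -/

set_option autoImplicit false

namespace Pool.Agent.HWS

open IsLocalRing Module Polynomial Pool.Agent.HWC

theorem closureS (S R : Type) [CommRing S] [IsDomain S] [IsLocalRing S] [IsNoetherianRing S]
    [CommRing R] [IsDomain R] [IsLocalRing R] [IsNoetherianRing R] [Algebra S R]
    [Module.Finite S R] [Module.Free S R] (hGS : GorOne S) (hGR : GorOne R)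
    (y : R) (hadj : Algebra.adjoin S {y} = ⊤) (hy : y ∈ maximalIdeal R ∨
      ∃ (p a : ℕ) (s : S), p.Prime ∧ (p : S) ∈ maximalIdeal S ∧
        y ^ p ^ a - algebraMap S R s ∈ maximalIdeal R)
    (h : HWC S) : HWC R := by
  have hS : Pkg S := pkg_of_gorOne S hGS
  have hR : Pkg R := pkg_of_gorOne R hGR
  obtain ⟨pb, f, hgen, hf, hdeg, hdim, hroot⟩ := exists_pb S R y hadj
  have hn : 0 < pb.dim := by rw [hdim]; exact Module.finrank_pos
  rw [← hgen] at hroot hy
  have hinj : Function.Injective (algebraMap S R) := FaithfulSMul.algebraMap_injective S R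
  obtain ⟨t, ht, ht0, -⟩ := hS.gor
  have htR : algebraMap S R t ∈ maximalIdeal R := map_maximal S R t ht
  have htR0 : algebraMap S R t ≠ 0 := fun h0 => ht0 ((map_eq_zero_iff _ hinj).mp h0)
  intro M _ _ _ _ hrefl
  let _ : Module S M := Module.compHom M (algebraMap S R)
  have : IsScalarTower S R M := ⟨fun s r m => by
    rw [Algebra.smul_def, mul_smul]; rfl⟩
  have : Module.Finite S M := Module.Finite.trans R M
  have hTF : TF R M := fun s m h0 => smul_eq_zero.mp h0
  have hTFS : TF S M := fun s m h0 => by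
    rw [← algebraMap_smul R s m] at h0
    rcases smul_eq_zero.mp h0 with h1 | h1
    · left; exact (map_eq_zero_iff _ hinj).mp h1
    · right; exact h1
  have hL : ∀ k : ℕ, Lift R M (algebraMap S R t ^ k) := fun k =>
    lift_of_reflexive R hR M hTF hrefl _ (pow_ne_zero k htR0)
  have hL1 : Lift R M (algebraMap S R t) := lift_of_reflexive R hR M hTF hrefl _ htR0
  obtain ⟨q, hAF⟩ := exists_AF R hR M hTF _ htR htR0
  have hw := exists_w S R pb hn f hf hdeg hroot
  have htM : ∀ m : M, t • m = 0 → m = 0 := fun m hm => (hTFS t m hm).resolve_left ht0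
  have hA := stepA (M := M) pb f hw t htM q hAF hL
  have hB := stepB (M := M) pb f hroot hw t
    (fun r hr => by
      rw [Algebra.smul_def] at hr
      exact (mul_eq_zero.mp hr).resolve_left htR0)
    (fun k => finLen S hS (t ^ k) (pow_ne_zero k ht0)) q hAF hA
  have hnil : (∃ K : ℕ, algebraMap S R t ∣ pb.gen ^ K) ∨
      ∃ (p a : ℕ) (s : S) (J K : ℕ), p.Prime ∧ t ∣ (p : S) ^ J ∧
        algebraMap S R t ∣ (pb.gen ^ (p ^ a) - algebraMap S R s) ^ K := by
    rcases hy with hy | ⟨p, a, s, hp, hpS, hy⟩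
    · exact Or.inl (hR.dim1 _ hy _ htR0)
    · obtain ⟨J, hJ⟩ := hS.dim1 _ hpS _ ht0
      obtain ⟨K, hK⟩ := hR.dim1 _ hy _ htR0
      exact Or.inr ⟨p, a, s, J, K, hp, hJ, hK⟩
  have hC := stepC (M := M) pb f hroot t htM hnil hL1 hA hB
  obtain ⟨θ, hθ⟩ := hB LinearMap.id (by rw [LinearMap.comp_id, LinearMap.id_comp, sub_self])
  have hreflS := reflexive_of_lift S hS M hTFS t ht ht0 hC
  have : NoZeroSMulDivisors S M := ⟨fun {s m} h0 => hTFS s m h0⟩
  have : Module.Free S M := h M hreflS
  exact relP S R M pb f hroot θ hθ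

end Pool.Agent.HWS
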