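import Pool.Agent.HWS.Clauses
import Pool.Agent.HWS.Main
import Pool.Agent.HWC.ProofR

/-! Proof of `TowerClosure`. -/

set_option autoImplicit false

namespace Pool.Agent.HWS

open IsLocalRing Module Pool.Agent.HWC

theorem towerClosure : TowerClosure := by
  intro R _ hT
  induction hT with
  | dvr V =>
    obtain ⟨h1, h2⟩ := dvr_base V
    exact ⟨inferInstance, inferInstance, inferInstance, h1, h2⟩
  | sg k H hH =>
    obtain ⟨hloc, hnoe, hg, h'⟩ := sg_hwcL k H hH
    exact ⟨inferInstance, hloc, hnoe, hg, h'⟩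
  | base S hG hS => exact ⟨inferInstance, inferInstance, inferInstance, hG, hS⟩
  | simple S R hT hR ih =>
    obtain ⟨_, _, hN, hG, hS⟩ := ih
    obtain ⟨y, hadj, hy⟩ := hR
    have hNR : IsNoetherianRing R := IsNoetherianRing.of_finite S R
    obtain ⟨pb, -, -, -, -, -, -⟩ := exists_pb S R y hadj
    have hGR : GorOne R := gorOne_step S R pb (map_maximal S R) hG
    exact ⟨inferInstance, inferInstance, hNR, hGR, closureS S R hG hGR y hadj hy hS⟩
  | radical S R hT hG hR ih =>
    obtain ⟨_, _, hN, hGS, hS⟩ := ih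
    obtain ⟨x, hx, hx0, c, Y, n, hn, hrank, hadj, hY⟩ := hR
    have hNR : IsNoetherianRing R := IsNoetherianRing.of_finite S R
    exact ⟨inferInstance, inferInstance, hNR, hG,
      closureM S R hGS hG x hx hx0 c Y n hn hrank hadj hY hS⟩

end Pool.Agent.HWS
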