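import Pool.Agent.HWC.Defs

/-!
# The operator `(f(L) - f(P)) / (L - P)` on homomorphisms

For `a : N → N`, `b : M → M`, `φ : M → N` let `hopk k φ = ∑_(i+j=k-1) a^i φ b^j` and
`hop f φ = ∑_k f_k hopk k φ`.
-/

set_option autoImplicit false

namespace Pool.Agent.HWS

open Polynomial

section

variable {S M N : Type} [CommRing S] [AddCommGroup M] [Module S M] [AddCommGroup N] [Module S N]

/-- `∑_(i+j=k-1) a^i φ b^j` -/
noncomputable def hopk (a : Module.End S N) (b : Module.End S M) (φ : M →ₗ[S] N) : ℕ → (M →ₗ[S] N)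
  | 0 => 0
  | k + 1 => a ∘ₗ hopk a b φ k + φ ∘ₗ (b ^ k)

theorem hopk_zero (a : Module.End S N) (b : Module.End S M) (φ : M →ₗ[S] N) :
    hopk a b φ 0 = 0 := rfl

theorem hopk_succ (a : Module.End S N) (b : Module.End S M) (φ : M →ₗ[S] N) (k : ℕ) :
    hopk a b φ (k + 1) = a ∘ₗ hopk a b φ k + φ ∘ₗ (b ^ k) := rfl

theorem hopk_succ' (a : Module.End S N) (b : Module.End S M) (φ : M →ₗ[S] N) (k : ℕ) :
    hopk a b φ (k + 1) = hopk a b φ k ∘ₗ b + (a ^ k : Module.End S N) ∘ₗ φ := by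
  induction k with
  | zero =>
    rw [hopk_succ, hopk_zero, pow_zero, pow_zero]
    ext m
    simp
  | succ k ih =>
    have e2 := hopk_succ a b φ k
    have ih' := ih
    rw [e2] at ih'
    rw [hopk_succ a b φ (k + 1), ih]
    ext m
    have h1 := LinearMap.congr_fun ih' (b m)
    simp only [LinearMap.add_apply, LinearMap.comp_apply] at h1 ⊢
    rw [← h1, map_add, pow_succ' a k, pow_succ b k]
    simp only [Module.End.mul_apply]
    abel

theorem hopk_comm (a : Module.End S N) (b : Module.End S M) (φ : M →ₗ[S] N) (k : ℕ) :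
    a ∘ₗ hopk a b φ k - hopk a b φ k ∘ₗ b = (a ^ k : Module.End S N) ∘ₗ φ - φ ∘ₗ (b ^ k) := by
  have h1 := hopk_succ a b φ k
  have h2 := hopk_succ' a b φ k
  rw [h1] at h2
  rw [sub_eq_sub_iff_add_eq_add, h2, add_comm]

theorem hopk_delta (a : Module.End S N) (b : Module.End S M) (φ : M →ₗ[S] N) (k : ℕ) :
    hopk a b (a ∘ₗ φ - φ ∘ₗ b) k = (a ^ k : Module.End S N) ∘ₗ φ - φ ∘ₗ (b ^ k) := by
  induction k with
  | zero =>
    rw [hopk_zero, pow_zero, pow_zero]
    ext m
    simp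
  | succ k ih =>
    rw [hopk_succ, ih]
    ext m
    simp only [LinearMap.add_apply, LinearMap.sub_apply, LinearMap.comp_apply, map_sub]
    rw [pow_succ' a k, pow_succ' b k]
    simp only [Module.End.mul_apply]
    abel

theorem hopk_sub (a : Module.End S N) (b : Module.End S M) (φ ψ : M →ₗ[S] N) (k : ℕ) :
    hopk a b (φ - ψ) k = hopk a b φ k - hopk a b ψ k := by
  induction k with
  | zero => rw [hopk_zero, hopk_zero, hopk_zero, sub_zero]
  | succ k ih =>
    rw [hopk_succ, hopk_succ, hopk_succ, ih]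
    ext m
    simp only [LinearMap.add_apply, LinearMap.sub_apply, LinearMap.comp_apply, map_sub]
    abel

theorem hopk_smul (a : Module.End S N) (b : Module.End S M) (s : S) (φ : M →ₗ[S] N) (k : ℕ) :
    hopk a b (s • φ) k = s • hopk a b φ k := by
  induction k with
  | zero => rw [hopk_zero, hopk_zero, smul_zero]
  | succ k ih =>
    rw [hopk_succ, hopk_succ, ih]
    ext m
    simp only [LinearMap.add_apply, LinearMap.smul_apply, LinearMap.comp_apply, map_smul, smul_add]

theorem hopk_nat_left {N' : Type} [AddCommGroup N'] [Module S N'] (a : Module.End S N)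
    (a' : Module.End S N') (b : Module.End S M) (π : N →ₗ[S] N') (h : π ∘ₗ a = a' ∘ₗ π)
    (φ : M →ₗ[S] N) (k : ℕ) : π ∘ₗ hopk a b φ k = hopk a' b (π ∘ₗ φ) k := by
  induction k with
  | zero => rw [hopk_zero, hopk_zero, LinearMap.comp_zero]
  | succ k ih =>
    rw [hopk_succ, hopk_succ, ← ih, LinearMap.comp_add, ← LinearMap.comp_assoc, h,
      LinearMap.comp_assoc, LinearMap.comp_assoc]

theorem pow_nat {M' : Type} [AddCommGroup M'] [Module S M'] (b : Module.End S M)
    (b' : Module.End S M') (ρ : M' →ₗ[S] M) (h : b ∘ₗ ρ = ρ ∘ₗ b') (k : ℕ) :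
    (b ^ k : Module.End S M) ∘ₗ ρ = ρ ∘ₗ (b' ^ k) := by
  induction k with
  | zero =>
    rw [pow_zero, pow_zero]
    rfl
  | succ k ih =>
    rw [pow_succ b k, pow_succ b' k]
    ext m
    have h1 := LinearMap.congr_fun h m
    have h2 := LinearMap.congr_fun ih (b' m)
    simp only [LinearMap.comp_apply, Module.End.mul_apply] at h1 h2 ⊢
    rw [h1, h2]

theorem hopk_nat_right {M' : Type} [AddCommGroup M'] [Module S M'] (a : Module.End S N)
    (b : Module.End S M) (b' : Module.End S M') (ρ : M' →ₗ[S] M) (h : b ∘ₗ ρ = ρ ∘ₗ b')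
    (φ : M →ₗ[S] N) (k : ℕ) : hopk a b φ k ∘ₗ ρ = hopk a b' (φ ∘ₗ ρ) k := by
  induction k with
  | zero => rw [hopk_zero, hopk_zero, LinearMap.zero_comp]
  | succ k ih =>
    rw [hopk_succ, hopk_succ, ← ih, LinearMap.add_comp, LinearMap.comp_assoc,
      LinearMap.comp_assoc, pow_nat b b' ρ h k, LinearMap.comp_assoc]

theorem hopk_homotopy (a : Module.End S N) (b w : Module.End S M) (ψ : M →ₗ[S] N) (k : ℕ) :
    ∃ T : M →ₗ[S] N, a ∘ₗ T - T ∘ₗ b = hopk a b ψ k ∘ₗ w - ψ ∘ₗ hopk b b w k := by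
  induction k with
  | zero =>
    refine ⟨0, ?_⟩
    rw [hopk_zero, hopk_zero]
    simp
  | succ k ih =>
    obtain ⟨T, hT⟩ := ih
    refine ⟨hopk a b ψ k ∘ₗ w + T ∘ₗ b, ?_⟩
    rw [hopk_succ a b ψ k, hopk_succ' b b w k]
    ext m
    have h1 := LinearMap.congr_fun hT (b m)
    simp only [LinearMap.add_apply, LinearMap.sub_apply, LinearMap.comp_apply, map_add] at h1 ⊢
    have h2 : a (T (b m)) = hopk a b ψ k (w (b m)) - ψ (hopk b b w k (b m)) + T (b (b m)) := by
      rw [← h1]; abel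
    rw [h2]
    abel

/-- `(f(L) - f(P)) / (L - P)` applied to `φ` -/
noncomputable def hop (f : S[X]) (a : Module.End S N) (b : Module.End S M) (φ : M →ₗ[S] N) :
    M →ₗ[S] N :=
  ∑ k ∈ Finset.range (f.natDegree + 1), f.coeff k • hopk a b φ k

theorem hop_sub (f : S[X]) (a : Module.End S N) (b : Module.End S M) (φ ψ : M →ₗ[S] N) :
    hop f a b (φ - ψ) = hop f a b φ - hop f a b ψ := by
  unfold hop
  rw [← Finset.sum_sub_distrib]
  refine Finset.sum_congr rfl fun k _ => ?_
  rw [hopk_sub, smul_sub]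

theorem hop_smul (f : S[X]) (a : Module.End S N) (b : Module.End S M) (s : S) (φ : M →ₗ[S] N) :
    hop f a b (s • φ) = s • hop f a b φ := by
  unfold hop
  rw [Finset.smul_sum]
  refine Finset.sum_congr rfl fun k _ => ?_
  rw [hopk_smul, smul_comm]

theorem hop_nat_left {N' : Type} [AddCommGroup N'] [Module S N'] (f : S[X]) (a : Module.End S N)
    (a' : Module.End S N') (b : Module.End S M) (π : N →ₗ[S] N') (h : π ∘ₗ a = a' ∘ₗ π)
    (φ : M →ₗ[S] N) : π ∘ₗ hop f a b φ = hop f a' b (π ∘ₗ φ) := by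
  unfold hop
  ext m
  simp only [LinearMap.comp_apply, LinearMap.sum_apply, LinearMap.smul_apply, map_sum, map_smul]
  refine Finset.sum_congr rfl fun k _ => ?_
  have h1 := LinearMap.congr_fun (hopk_nat_left a a' b π h φ k) m
  simp only [LinearMap.comp_apply] at h1
  rw [h1]

theorem hop_nat_right {M' : Type} [AddCommGroup M'] [Module S M'] (f : S[X]) (a : Module.End S N)
    (b : Module.End S M) (b' : Module.End S M') (ρ : M' →ₗ[S] M) (h : b ∘ₗ ρ = ρ ∘ₗ b')
    (φ : M →ₗ[S] N) : hop f a b φ ∘ₗ ρ = hop f a b' (φ ∘ₗ ρ) := by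
  unfold hop
  ext m
  simp only [LinearMap.comp_apply, LinearMap.sum_apply, LinearMap.smul_apply]
  refine Finset.sum_congr rfl fun k _ => ?_
  have h1 := LinearMap.congr_fun (hopk_nat_right a b b' ρ h φ k) m
  simp only [LinearMap.comp_apply] at h1
  rw [h1]

theorem aeval_comp (f : S[X]) (a : Module.End S N) (φ : M →ₗ[S] N) :
    (aeval a f) ∘ₗ φ = ∑ k ∈ Finset.range (f.natDegree + 1), f.coeff k •
      ((a ^ k : Module.End S N) ∘ₗ φ) := by
  rw [aeval_eq_sum_range]
  ext m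
  simp only [LinearMap.comp_apply, LinearMap.sum_apply, LinearMap.smul_apply]

theorem comp_aeval (f : S[X]) (b : Module.End S M) (φ : M →ₗ[S] N) :
    φ ∘ₗ (aeval b f) = ∑ k ∈ Finset.range (f.natDegree + 1), f.coeff k • (φ ∘ₗ (b ^ k)) := by
  rw [aeval_eq_sum_range]
  ext m
  simp only [LinearMap.comp_apply, LinearMap.sum_apply, LinearMap.smul_apply, map_sum, map_smul]

theorem hop_comm (f : S[X]) (a : Module.End S N) (b : Module.End S M) (φ : M →ₗ[S] N) :
    a ∘ₗ hop f a b φ - hop f a b φ ∘ₗ b = (aeval a f) ∘ₗ φ - φ ∘ₗ (aeval b f) := by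
  rw [aeval_comp, comp_aeval, ← Finset.sum_sub_distrib]
  unfold hop
  ext m
  simp only [LinearMap.sub_apply, LinearMap.comp_apply, LinearMap.sum_apply,
    LinearMap.smul_apply, map_sum, map_smul]
  rw [← Finset.sum_sub_distrib]
  refine Finset.sum_congr rfl fun k _ => ?_
  have h1 := LinearMap.congr_fun (hopk_comm a b φ k) m
  simp only [LinearMap.sub_apply, LinearMap.comp_apply] at h1
  rw [← smul_sub, h1, smul_sub]

theorem hop_delta (f : S[X]) (a : Module.End S N) (b : Module.End S M) (φ : M →ₗ[S] N) :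
    hop f a b (a ∘ₗ φ - φ ∘ₗ b) = (aeval a f) ∘ₗ φ - φ ∘ₗ (aeval b f) := by
  rw [aeval_comp, comp_aeval, ← Finset.sum_sub_distrib]
  unfold hop
  refine Finset.sum_congr rfl fun k _ => ?_
  rw [hopk_delta, smul_sub]

theorem hop_homotopy (f : S[X]) (a : Module.End S N) (b w : Module.End S M) (ψ : M →ₗ[S] N) :
    ∃ T : M →ₗ[S] N, a ∘ₗ T - T ∘ₗ b = hop f a b ψ ∘ₗ w - ψ ∘ₗ hop f b b w := by
  choose T hT using fun k => hopk_homotopy a b w ψ k
  refine ⟨∑ k ∈ Finset.range (f.natDegree + 1), f.coeff k • T k, ?_⟩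
  unfold hop
  ext m
  simp only [LinearMap.sub_apply, LinearMap.comp_apply, LinearMap.sum_apply,
    LinearMap.smul_apply, map_sum, map_smul]
  rw [← Finset.sum_sub_distrib, ← Finset.sum_sub_distrib]
  refine Finset.sum_congr rfl fun k _ => ?_
  have h1 := LinearMap.congr_fun (hT k) m
  simp only [LinearMap.sub_apply, LinearMap.comp_apply] at h1
  rw [← smul_sub, h1, smul_sub]

end

end Pool.Agent.HWS
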